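import Pool.Agent.Helper97.UDP.Par

/-!
# The explicit packing (module UDP-D)
-/

set_option autoImplicit false

namespace Pool.Agent.Helper97.UDP

open Pool.Agent.Helper20.Flip

namespace Yes

/-- horizontal distance of two touching unit disks with vertical distance `z` -/
noncomputable def f (z : ℝ) : ℝ := √(4 - z ^ 2)

theorem f_sq {z : ℝ} (h : z ^ 2 ≤ 4) : f z ^ 2 + z ^ 2 = 4 := by
  unfold f
  rw [Real.sq_sqrt (by linarith)]
  ring

theorem f_sq' {z : ℝ} (h0 : 0 ≤ z) (h : z ≤ 2) : f z ^ 2 + z ^ 2 = 4 := f_sq (by nlinarith)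

theorem f_nonneg (z : ℝ) : 0 ≤ f z := Real.sqrt_nonneg _

theorem f_le {z c : ℝ} (hc : 0 ≤ c) (h : 4 ≤ c ^ 2 + z ^ 2) : f z ≤ c := by
  unfold f
  rw [Real.sqrt_le_left hc]
  linarith

theorem le_f {z c : ℝ} (h : c ^ 2 + z ^ 2 ≤ 4) : c ≤ f z := by
  unfold f
  exact Real.le_sqrt_of_sq_le (by linarith)

theorem s3 : √3 ^ 2 = 3 := Real.sq_sqrt (by norm_num)
theorem s3_lo : 1.73205 ≤ √3 := Real.le_sqrt_of_sq_le (by norm_num)
theorem s3_hi : √3 ≤ 1.73206 := by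
  rw [Real.sqrt_le_left (by norm_num)]
  norm_num

/-- tangent bound at `1` -/
theorem f_tan1 {x : ℝ} (h1 : x ≤ 1) : f (1 + x) ≤ √3 - x / √3 := by
  have h3 := s3
  have hlo := s3_lo
  have hhi := s3_hi
  have hpos : 0 < √3 := by linarith
  have e : x / √3 = x * √3 / 3 := by
    rw [div_eq_div_iff hpos.ne' (by norm_num)]
    nlinarith
  rw [e]
  apply f_le
  · nlinarith
  · nlinarith [sq_nonneg x]

/-- tangent bound at `2/7` -/
theorem f_tan2 {x : ℝ} (h1 : x ≤ 1) : f (2 / 7 + x) ≤ 8 * √3 / 7 - x / (4 * √3) := by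
  have h3 := s3
  have hlo := s3_lo
  have hhi := s3_hi
  have hpos : 0 < √3 := by linarith
  have e : x / (4 * √3) = x * √3 / 12 := by
    rw [div_eq_div_iff (by positivity) (by norm_num)]
    nlinarith
  rw [e]
  apply f_le
  · nlinarith
  · nlinarith [sq_nonneg x]

/-- abscissas of the seven disks of a gadget -/
noncomputable def XX (G u u' γ : ℝ) : ℕ → ℝ
  | 0 => 0
  | 1 => f (1 + γ - u)
  | 2 => f (1 + γ + u)
  | 3 => f (1 + γ - u) + f (2 / 7 - 5 * γ)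
  | 4 => f (1 + γ + u) + f (2 / 7 - 3 * γ)
  | 5 => G - f (1 + γ - u')
  | _ => G - f (1 + γ + u')

/-- ordinates of the seven disks of a gadget -/
noncomputable def YY (u γ : ℝ) : ℕ → ℝ
  | 0 => u
  | 1 => 1 + γ
  | 2 => -(1 + γ)
  | 3 => 9 / 7 - 4 * γ
  | 4 => -(5 / 7 + 4 * γ)
  | 5 => 1 + γ
  | _ => -(1 + γ)

structure OK (G u u' γ : ℝ) : Prop where
  u1 : -(1 / 2 ^ 14) ≤ u
  u2 : u ≤ 1 / 2 ^ 14
  u1' : -(1 / 2 ^ 14) ≤ u'
  u2' : u' ≤ 1 / 2 ^ 14
  γ1 : 0 ≤ γ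
  γ2 : γ ≤ 2 / 2 ^ 14
  sum : u + u' = -γ / 2
  G1 : 30 / 7 * √3 ≤ G
  G2 : G ≤ 30 / 7 * (√3 + 1 / 2 ^ 14)

theorem f_near1 {z : ℝ} (h1 : 0.9999 ≤ z) (h2 : z ≤ 1.0002) : 1.7318 ≤ f z ∧ f z ≤ 1.7322 := by
  constructor
  · apply le_f; nlinarith
  · apply f_le (by norm_num); nlinarith

theorem f_near2 {z : ℝ} (h1 : 0.285 ≤ z) (h2 : z ≤ 0.2858) : 1.979 ≤ f z ∧ f z ≤ 1.98 := by
  constructor
  · apply le_f; nlinarith
  · apply f_le (by norm_num); nlinarith

variable {G u u' γ : ℝ}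

theorem OK.bounds (h : OK G u u' γ) :
    (1.7318 ≤ f (1 + γ - u) ∧ f (1 + γ - u) ≤ 1.7322) ∧
    (1.7318 ≤ f (1 + γ + u) ∧ f (1 + γ + u) ≤ 1.7322) ∧
    (1.7318 ≤ f (1 + γ - u') ∧ f (1 + γ - u') ≤ 1.7322) ∧
    (1.7318 ≤ f (1 + γ + u') ∧ f (1 + γ + u') ≤ 1.7322) ∧
    (1.979 ≤ f (2 / 7 - 5 * γ) ∧ f (2 / 7 - 5 * γ) ≤ 1.98) ∧
    (1.979 ≤ f (2 / 7 - 3 * γ) ∧ f (2 / 7 - 3 * γ) ≤ 1.98) ∧
    7.423 ≤ G ∧ G ≤ 7.4235 := by
  obtain ⟨a1, a2, a3, a4, a5, a6, a7, a8, a9⟩ := h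
  have hlo := s3_lo
  have hhi := s3_hi
  norm_num at a1 a2 a3 a4 a6 a9
  refine ⟨f_near1 ?_ ?_, f_near1 ?_ ?_, f_near1 ?_ ?_, f_near1 ?_ ?_, f_near2 ?_ ?_, f_near2 ?_ ?_,
    ?_, ?_⟩ <;> linarith

/-- the two chains fit -/
theorem OK.fitU (h : OK G u u' γ) :
    f (1 + γ - u) + f (1 + γ - u') + 2 * f (2 / 7 - 5 * γ) ≤ G := by
  obtain ⟨a1, a2, a3, a4, a5, a6, a7, a8, a9⟩ := h
  norm_num at a1 a2 a3 a4 a6 a9
  have t1 := f_tan1 (x := γ - u) (by linarith)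
  have t2 := f_tan1 (x := γ - u') (by linarith)
  have t3 := f_tan2 (x := -(5 * γ)) (by linarith)
  rw [show 1 + (γ - u) = 1 + γ - u by ring] at t1
  rw [show 1 + (γ - u') = 1 + γ - u' by ring] at t2
  rw [show 2 / 7 + -(5 * γ) = 2 / 7 - 5 * γ by ring] at t3
  have hpos : 0 < √3 := by have := s3_lo; linarith
  have e : -(5 * γ) / (4 * √3) = -(5 / 4 * γ) / √3 := by
    field_simp
  rw [e] at t3
  have e2 : (γ - u) / √3 + (γ - u') / √3 + 2 * (-(5 / 4 * γ) / √3) = 0 := by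
    rw [← mul_div_assoc, ← add_div, ← add_div]
    rw [show γ - u + (γ - u') + 2 * -(5 / 4 * γ) = -(u + u') - γ / 2 by ring, a7]
    simp
    ring
  linarith

theorem OK.fitL (h : OK G u u' γ) :
    f (1 + γ + u) + f (1 + γ + u') + 2 * f (2 / 7 - 3 * γ) ≤ G := by
  obtain ⟨a1, a2, a3, a4, a5, a6, a7, a8, a9⟩ := h
  norm_num at a1 a2 a3 a4 a6 a9
  have t1 := f_tan1 (x := γ + u) (by linarith)
  have t2 := f_tan1 (x := γ + u') (by linarith)
  have t3 := f_tan2 (x := -(3 * γ)) (by linarith)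
  rw [show 1 + (γ + u) = 1 + γ + u by ring] at t1
  rw [show 1 + (γ + u') = 1 + γ + u' by ring] at t2
  rw [show 2 / 7 + -(3 * γ) = 2 / 7 - 3 * γ by ring] at t3
  have hpos : 0 < √3 := by have := s3_lo; linarith
  have e : -(3 * γ) / (4 * √3) = -(3 / 4 * γ) / √3 := by
    field_simp
  rw [e] at t3
  have e2 : (γ + u) / √3 + (γ + u') / √3 + 2 * (-(3 / 4 * γ) / √3) = 0 := by
    rw [← mul_div_assoc, ← add_div, ← add_div]
    rw [show γ + u + (γ + u') + 2 * -(3 / 4 * γ) = (u + u') + γ / 2 by ring, a7]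
    simp
    ring
  linarith

/-- distances inside a gadget -/
theorem OK.dist (h : OK G u u' γ) {t t' : ℕ} (htt : t < t') (ht' : t' < 7) :
    4 ≤ (XX G u u' γ t - XX G u u' γ t') ^ 2 + (YY u γ t - YY u γ t') ^ 2 := by
  have key1 : ∀ a b : ℝ, a ≤ -2 → 4 ≤ a ^ 2 + b ^ 2 := by
    intro a b hab
    nlinarith [sq_nonneg b]
  have key3 : ∀ a b : ℝ, 2 ≤ b → 4 ≤ a ^ 2 + b ^ 2 := by
    intro a b hab
    nlinarith [sq_nonneg a]
  have key2 : ∀ a b : ℝ, a ≤ -(1.9) → 1.7 ≤ b → 4 ≤ a ^ 2 + b ^ 2 := by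
    intro a b ha hb
    nlinarith
  have key2' : ∀ a b : ℝ, a ≤ -(1.9) → b ≤ -(1.7) → 4 ≤ a ^ 2 + b ^ 2 := by
    intro a b ha hb
    nlinarith
  have key4 : ∀ a c z : ℝ, 0 ≤ c → c ≤ a → c ^ 2 + z ^ 2 = 4 → 4 ≤ a ^ 2 + z ^ 2 := by
    intro a c z h0 h1 h2
    nlinarith
  obtain ⟨⟨b1, b2⟩, ⟨b3, b4⟩, ⟨b5, b6⟩, ⟨b7, b8⟩, ⟨b9, b10⟩, ⟨b11, b12⟩, b13, b14⟩ := h.bounds
  have hU := h.fitU
  have hL := h.fitL
  obtain ⟨a1, a2, a3, a4, a5, a6, a7, a8, a9⟩ := h
  norm_num at a1 a2 a3 a4 a6 a9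
  have q1 := f_sq' (z := 1 + γ - u) (by linarith) (by linarith)
  have q2 := f_sq' (z := 1 + γ + u) (by linarith) (by linarith)
  have q5 := f_sq' (z := 2 / 7 - 5 * γ) (by linarith) (by linarith)
  have q6 := f_sq' (z := 2 / 7 - 3 * γ) (by linarith) (by linarith)
  interval_cases t' <;> interval_cases t <;> simp only [XX, YY]
  · -- M T1
    refine le_of_eq (q1.symm.trans ?_); ring
  · -- M B1
    refine le_of_eq (q2.symm.trans ?_); ring
  · -- T1 B1
    apply key3; linarith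
  · -- M P
    apply key1; linarith
  · -- T1 P
    refine le_of_eq (q5.symm.trans ?_); ring
  · -- B1 P
    apply key2' <;> linarith
  · -- M Q
    apply key1; linarith
  · -- T1 Q
    apply key2 <;> linarith
  · -- B1 Q
    refine le_of_eq (q6.symm.trans ?_); ring
  · -- P Q
    apply key3; linarith
  · -- M T2
    apply key1; linarith
  · -- T1 T2
    apply key1; linarith
  · -- B1 T2
    apply key1; linarith
  · -- P T2
    have := key4 (G - f (1 + γ - u') - (f (1 + γ - u) + f (2 / 7 - 5 * γ))) _ _ (f_nonneg _)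
      (by linarith) q5
    refine this.trans (le_of_eq ?_)
    ring
  · -- Q T2
    apply key2' <;> linarith
  · -- M B2
    apply key1; linarith
  · -- T1 B2
    apply key1; linarith
  · -- B1 B2
    apply key1; linarith
  · -- P B2
    apply key2 <;> linarith
  · -- Q B2
    have := key4 (G - f (1 + γ + u') - (f (1 + γ + u) + f (2 / 7 - 3 * γ))) _ _ (f_nonneg _)
      (by linarith) q6
    refine this.trans (le_of_eq ?_)
    ring
  · -- T2 B2
    apply key3; linarith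

/-- the neighbouring disk `M'` -/
theorem OK.dist' (h : OK G u u' γ) {t : ℕ} (ht : t < 7) :
    4 ≤ (XX G u u' γ t - G) ^ 2 + (YY u γ t - u') ^ 2 := by
  have key : ∀ a b : ℝ, (a ≤ -2) → 4 ≤ a ^ 2 + b ^ 2 := by
    intro a b hab
    nlinarith [sq_nonneg b]
  obtain ⟨⟨b1, b2⟩, ⟨b3, b4⟩, ⟨b5, b6⟩, ⟨b7, b8⟩, ⟨b9, b10⟩, ⟨b11, b12⟩, b13, b14⟩ := h.bounds
  obtain ⟨a1, a2, a3, a4, a5, a6, a7, a8, a9⟩ := h
  norm_num at a1 a2 a3 a4 a6 a9
  have q3 := f_sq' (z := 1 + γ - u') (by linarith) (by linarith)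
  have q4 := f_sq' (z := 1 + γ + u') (by linarith) (by linarith)
  interval_cases t <;> simp only [XX, YY]
  · apply key; linarith
  · apply key; linarith
  · apply key; linarith
  · apply key; linarith
  · apply key; linarith
  · refine le_of_eq (q3.symm.trans ?_); ring
  · refine le_of_eq (q4.symm.trans ?_); ring

/-- rough bounds for the abscissas -/
theorem OK.XX_bounds (h : OK G u u' γ) {t : ℕ} (ht : t < 7) :
    0 ≤ XX G u u' γ t ∧ XX G u u' γ t ≤ 5.692 ∧ (1 ≤ t → 1.73 ≤ XX G u u' γ t) := by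
  obtain ⟨⟨b1, b2⟩, ⟨b3, b4⟩, ⟨b5, b6⟩, ⟨b7, b8⟩, ⟨b9, b10⟩, ⟨b11, b12⟩, b13, b14⟩ := h.bounds
  interval_cases t <;> simp only [XX] <;> refine ⟨?_, ?_, ?_⟩ <;> intros <;> linarith

/-! ### the zones -/

variable (P : Par)

theorem bx_mod {j c : ℕ} (hc : c < 6) (h0 : 6 * j + c ≠ 0) (hm : 6 * j + c ≠ 6 * P.m + 1) :
    P.bx (6 * j + c) = if c = 0 then (j : ℝ) * P.G - 3 / 5
      else if c = 1 then (j : ℝ) * P.G + 3 / 5
      else if c = 2 then (j : ℝ) * P.G + 7 / 10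
      else if c = 3 then (j : ℝ) * P.G + (15 / 7 * P.r - 3 / 4)
      else if c = 4 then (j : ℝ) * P.G + (15 / 7 * P.r + 3 / 4)
      else (j : ℝ) * P.G + (P.G - 7 / 10) := by
  have e1 : (6 * j + c) / 6 = j := by omega
  have e2 : (6 * j + c) % 6 = c := by omega
  unfold Par.bx
  rw [if_neg h0, if_neg hm, e1, e2]

theorem half_G : 15 / 7 * P.r = P.G / 2 := by
  unfold Par.G
  ring

variable {P}

theorem z1 {j : ℕ} (hj : j < P.m) {a b : ℝ} (h1 : j * P.G + 3 / 5 ≤ a)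
    (h2 : a ≤ j * P.G + 7 / 10) (h3 : |b| ≤ 4 / 5 + P.τ) : (a, b) ∈ P.Reg := by
  refine ⟨6 * j + 1, by unfold Par.K; omega, ?_, ?_, ?_⟩
  · by_cases hm : 6 * j + 1 = 6 * P.m + 1
    · omega
    · rw [bx_mod P (by norm_num) (by omega) hm]
      simpa using h1
  · rw [show 6 * j + 1 + 1 = 6 * j + 2 by omega, bx_mod P (by norm_num) (by omega) (by omega)]
    simpa using h2
  · unfold Par.ht
    rw [show (6 * j + 1) % 6 = 1 by omega]
    simpa using h3

theorem z2 {j : ℕ} (hj : j < P.m) {a b : ℝ} (h1 : j * P.G + 7 / 10 ≤ a)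
    (h2 : a ≤ j * P.G + (P.G / 2 - 3 / 4)) (h3 : |b| ≤ 2 + P.γ j) : (a, b) ∈ P.Reg := by
  refine ⟨6 * j + 2, by unfold Par.K; omega, ?_, ?_, ?_⟩
  · rw [bx_mod P (by norm_num) (by omega) (by omega)]
    simpa using h1
  · rw [show 6 * j + 2 + 1 = 6 * j + 3 by omega, bx_mod P (by norm_num) (by omega) (by omega)]
    rw [half_G]
    simpa using h2
  · unfold Par.ht
    rw [show (6 * j + 2) % 6 = 2 by omega, show (6 * j + 2) / 6 = j by omega]
    simpa using h3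

theorem z3 {j : ℕ} (hj : j < P.m) {a b : ℝ} (h1 : j * P.G + (P.G / 2 - 3 / 4) ≤ a)
    (h2 : a ≤ j * P.G + (P.G / 2 + 3 / 4)) (h3 : |b| ≤ 16 / 7 - 4 * P.γ j) : (a, b) ∈ P.Reg := by
  refine ⟨6 * j + 3, by unfold Par.K; omega, ?_, ?_, ?_⟩
  · rw [bx_mod P (by norm_num) (by omega) (by omega)]
    rw [half_G]
    simpa using h1
  · rw [show 6 * j + 3 + 1 = 6 * j + 4 by omega, bx_mod P (by norm_num) (by omega) (by omega)]
    rw [half_G]
    simpa using h2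
  · unfold Par.ht
    rw [show (6 * j + 3) % 6 = 3 by omega, show (6 * j + 3) / 6 = j by omega]
    simpa using h3

theorem z4 {j : ℕ} (hj : j < P.m) {a b : ℝ} (h1 : j * P.G + (P.G / 2 + 3 / 4) ≤ a)
    (h2 : a ≤ j * P.G + (P.G - 7 / 10)) (h3 : |b| ≤ 2 + P.γ j) : (a, b) ∈ P.Reg := by
  refine ⟨6 * j + 4, by unfold Par.K; omega, ?_, ?_, ?_⟩
  · rw [bx_mod P (by norm_num) (by omega) (by omega)]
    rw [half_G]
    simpa using h1
  · rw [show 6 * j + 4 + 1 = 6 * j + 5 by omega, bx_mod P (by norm_num) (by omega) (by omega)]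
    simpa using h2
  · unfold Par.ht
    rw [show (6 * j + 4) % 6 = 4 by omega, show (6 * j + 4) / 6 = j by omega]
    simpa using h3

theorem z5 {j : ℕ} (hj : j < P.m) {a b : ℝ} (h1 : j * P.G + (P.G - 7 / 10) ≤ a)
    (h2 : a ≤ j * P.G + (P.G - 3 / 5)) (h3 : |b| ≤ 4 / 5 + P.τ) : (a, b) ∈ P.Reg := by
  refine ⟨6 * j + 5, by unfold Par.K; omega, ?_, ?_, ?_⟩
  · rw [bx_mod P (by norm_num) (by omega) (by omega)]
    simpa using h1
  · rw [show 6 * j + 5 + 1 = 6 * (j + 1) + 0 by omega,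
      bx_mod P (by norm_num) (by omega) (by omega), if_pos rfl]
    push_cast
    show a ≤ ((j : ℝ) + 1) * P.G - 3 / 5
    linarith
  · unfold Par.ht
    rw [show (6 * j + 5) % 6 = 5 by omega]
    simpa using h3

theorem z0 {j : ℕ} (hj : j ≤ P.m) {a b : ℝ} (h1 : j * P.G - 3 / 5 ≤ a ∨ (j = 0 ∧ -1 ≤ a))
    (h2 : a ≤ j * P.G + 3 / 5 ∨ (j = P.m ∧ a ≤ P.m * P.G + 1))
    (h3 : |b| ≤ if j = 0 ∨ j = P.m then 1 else 5 / 4) : (a, b) ∈ P.Reg := by
  have hm := P.hm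
  refine ⟨6 * j, by unfold Par.K; omega, ?_, ?_, ?_⟩
  · by_cases h0 : j = 0
    · subst h0
      have : P.bx (6 * 0) = -1 := by simp [Par.bx]
      rw [this]
      rcases h1 with h1 | h1
      · simp at h1
        show (-1 : ℝ) ≤ a
        linarith
      · exact h1.2
    · have := bx_mod P (j := j) (c := 0) (by norm_num) (by omega) (by omega)
      rw [add_zero, if_pos rfl] at this
      rw [this]
      rcases h1 with h1 | h1
      · exact h1
      · exact absurd h1.1 h0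
  · by_cases h0 : j = P.m
    · have : P.bx (6 * j + 1) = P.m * P.G + 1 := by simp [Par.bx, h0]
      rw [this]
      rcases h2 with h2 | h2
      · rw [h0] at h2
        show a ≤ P.m * P.G + 1
        linarith
      · exact h2.2
    · rw [bx_mod P (by norm_num) (by omega) (by omega)]
      rcases h2 with h2 | h2
      · simpa using h2
      · exact absurd h2.1 h0
  · unfold Par.ht
    rw [show (6 * j) % 6 = 0 by omega, if_pos rfl]
    have e : (6 * j = 0 ∨ 6 * j = 6 * P.m) ↔ (j = 0 ∨ j = P.m) := by omega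
    simp only [e]
    exact h3

/-! ### the disks are in the region -/

theorem abs_le_of_disk {d e R : ℝ} (hR : 0 ≤ R) (h : d ^ 2 + e ^ 2 ≤ 1) (hd : 1 - R ^ 2 ≤ d ^ 2) :
    |e| ≤ R := by
  rw [← sq_le_sq₀ (abs_nonneg e) hR, sq_abs]
  linarith

/-- the disks `M_j` -/
theorem diskM {j : ℕ} (hj : j ≤ P.m) {v : ℝ} (hv : |v| ≤ P.τ) (h0 : j = 0 → v = 0)
    (hm : j = P.m → v = 0) (hG1 : 7.423 ≤ P.G) (hγ : ∀ i, 0 ≤ P.γ i) :
    disk (j * P.G, v) ⊆ P.Reg := by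
  rintro ⟨a, b⟩ hp
  simp only [disk, Set.mem_ofPred_eq] at hp
  have hτ := P.hτ
  have hτ0 := P.hτ0
  norm_num at hτ
  have hb1 : |b - v| ≤ 1 := abs_le_of_disk (by norm_num) hp (by nlinarith [sq_nonneg (a - j * P.G)])
  have hd1 : |a - j * P.G| ≤ 1 := abs_le_of_disk (d := b - v) (by norm_num) (by linarith)
    (by nlinarith [sq_nonneg (b - v)])
  rw [abs_le] at hd1
  have hbv : |b| ≤ |b - v| + |v| := by
    have := abs_add_le (b - v) v
    rwa [sub_add_cancel] at this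
  have hz0 : |b| ≤ if j = 0 ∨ j = P.m then 1 else 5 / 4 := by
    split_ifs with h
    · have : v = 0 := by rcases h with h | h; exacts [h0 h, hm h]
      rw [this, sub_zero] at hb1
      exact hb1
    · linarith
  rcases le_or_gt (a - j * P.G) (3 / 5) with h1 | h1
  · rcases le_or_gt (-(3 / 5)) (a - j * P.G) with h2 | h2
    · exact z0 hj (Or.inl (by linarith)) (Or.inl (by linarith)) hz0
    · rcases Nat.eq_zero_or_pos j with hj0 | hj0
      · refine z0 hj (Or.inr ⟨hj0, ?_⟩) (Or.inl (by linarith)) hz0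
        have := hd1.1
        rw [hj0] at this
        simp at this
        linarith
      · obtain ⟨i, rfl⟩ : ∃ i, j = i + 1 := ⟨j - 1, by omega⟩
        push_cast at h1 h2 hd1 hp
        rcases le_or_gt (-(7 / 10)) (a - (i + 1) * P.G) with h3 | h3
        · refine z5 (j := i) (by omega) (by linarith) (by linarith) ?_
          have : |b - v| ≤ 4 / 5 := abs_le_of_disk (by norm_num) hp (by nlinarith)
          linarith
        · refine z4 (j := i) (by omega) (by linarith) (by linarith) ?_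
          have := hγ i
          linarith
  · rcases Nat.eq_or_lt_of_le hj with hj' | hj'
    · refine z0 hj (Or.inl (by linarith)) (Or.inr ⟨hj', ?_⟩) hz0
      rw [hj'] at hd1
      linarith
    · rcases le_or_gt (a - j * P.G) (7 / 10) with h3 | h3
      · refine z1 hj' (by linarith) (by linarith) ?_
        have : |b - v| ≤ 4 / 5 := abs_le_of_disk (by norm_num) hp (by nlinarith)
        linarith
      · refine z2 hj' (by linarith) (by linarith) ?_
        have := hγ j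
        linarith

/-- the other disks -/
theorem disk_mem {j : ℕ} (hj : j < P.m) (h : OK P.G u u' (P.γ j)) {σ : ℝ} (hσ : σ = 1 ∨ σ = -1)
    {t : ℕ} (ht1 : 1 ≤ t) (ht : t < 7) :
    disk (j * P.G + XX P.G u u' (P.γ j) t, σ * YY u (P.γ j) t) ⊆ P.Reg := by
  rintro ⟨a, b⟩ hp
  simp only [disk, Set.mem_ofPred_eq] at hp
  obtain ⟨⟨b1, b2⟩, ⟨b3, b4⟩, ⟨b5, b6⟩, ⟨b7, b8⟩, ⟨b9, b10⟩, ⟨b11, b12⟩, b13, b14⟩ := h.bounds
  have hγ1 := h.γ1
  have hγ2 := h.γ2
  norm_num at hγ2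
  set ξ := XX P.G u u' (P.γ j) t with hξ
  set ζ := YY u (P.γ j) t with hζ
  have hp' : (a - (j * P.G + ξ)) ^ 2 + (σ * b - ζ) ^ 2 ≤ 1 := by
    rcases hσ with rfl | rfl
    · simpa using hp
    · refine le_trans (le_of_eq ?_) hp
      ring
  have hb : |b| = |σ * b| := by
    rcases hσ with rfl | rfl <;> simp
  have hb1 : |σ * b - ζ| ≤ 1 := abs_le_of_disk (by norm_num) hp'
    (by nlinarith [sq_nonneg (a - (j * P.G + ξ))])
  have hd1 : |a - (j * P.G + ξ)| ≤ 1 := abs_le_of_disk (d := σ * b - ζ) (by norm_num) (by linarith)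
    (by nlinarith [sq_nonneg (σ * b - ζ)])
  rw [abs_le] at hd1
  have hbv : |b| ≤ |σ * b - ζ| + |ζ| := by
    rw [hb]
    have := abs_add_le (σ * b - ζ) ζ
    rwa [sub_add_cancel] at this
  have habs1 : |1 + P.γ j| = 1 + P.γ j := abs_of_nonneg (by linarith)
  have habs2 : |-(1 + P.γ j)| = 1 + P.γ j := by rw [abs_neg, habs1]
  have habs3 : |9 / 7 - 4 * P.γ j| = 9 / 7 - 4 * P.γ j := abs_of_nonneg (by linarith)
  have habs4 : |-(5 / 7 + 4 * P.γ j)| = 5 / 7 + 4 * P.γ j := by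
    rw [abs_neg]; exact abs_of_nonneg (by linarith)
  have hPQ : (3.7108 ≤ ξ ∧ ξ ≤ 3.7122) → |ζ| ≤ 9 / 7 - 4 * P.γ j → (a, b) ∈ P.Reg := by
    rintro ⟨x1, x2⟩ hz
    rcases le_or_gt (P.G / 2 - 3 / 4) (a - j * P.G) with h1 | h1
    · rcases le_or_gt (a - j * P.G) (P.G / 2 + 3 / 4) with h2 | h2
      · exact z3 hj (by linarith) (by linarith) (by linarith)
      · refine z4 hj (by linarith) (by linarith) ?_
        have : |σ * b - ζ| ≤ 0.6626 := by
          apply abs_le_of_disk (by norm_num) hp'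
          have : 0.749 ≤ a - (j * P.G + ξ) := by linarith
          nlinarith
        linarith
    · refine z2 hj (by linarith) (by linarith) ?_
      have : |σ * b - ζ| ≤ 0.6626 := by
        apply abs_le_of_disk (by norm_num) hp'
        have : a - (j * P.G + ξ) ≤ -0.749 := by linarith
        nlinarith
      linarith
  have hT1 : (1.7318 ≤ ξ ∧ ξ ≤ 1.7322) → |ζ| = 1 + P.γ j → (a, b) ∈ P.Reg := by
    rintro ⟨x1, x2⟩ hz
    exact z2 hj (by linarith) (by linarith) (by linarith)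
  have hT2 : (P.G - 1.7322 ≤ ξ ∧ ξ ≤ P.G - 1.7318) → |ζ| = 1 + P.γ j → (a, b) ∈ P.Reg := by
    rintro ⟨x1, x2⟩ hz
    exact z4 hj (by linarith) (by linarith) (by linarith)
  clear hp hp' hb1 hd1 hbv hb
  interval_cases t <;> simp only [XX, YY] at hξ hζ
  · exact hT1 ⟨by linarith, by linarith⟩ (by rw [hζ]; exact habs1)
  · exact hT1 ⟨by linarith, by linarith⟩ (by rw [hζ]; exact habs2)
  · exact hPQ ⟨by linarith, by linarith⟩ (by rw [hζ]; exact habs3.le)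
  · exact hPQ ⟨by linarith, by linarith⟩ (by rw [hζ, habs4]; linarith)
  · exact hT2 ⟨by linarith, by linarith⟩ (by rw [hζ]; exact habs1)
  · exact hT2 ⟨by linarith, by linarith⟩ (by rw [hζ]; exact habs2)

/-! ### the packing -/

/-- half of the signed partial sum with alternating sign -/
noncomputable def vv (P : Par) (ε : ℕ → ℤ) (j : ℕ) : ℝ :=
  (-1) ^ j * (∑ i ∈ Finset.range j, (ε i : ℝ) * P.γ i) / 2

/-- the type of the gadget -/
def sg (ε : ℕ → ℤ) (j : ℕ) : ℝ := (-1) ^ j * (ε j : ℝ)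

theorem sg_eq {ε : ℕ → ℤ} (hε : ∀ j, ε j = 1 ∨ ε j = -1) (j : ℕ) : sg ε j = 1 ∨ sg ε j = -1 := by
  unfold sg
  rcases neg_one_pow_eq_or ℝ j with h | h <;> rcases hε j with h' | h' <;> rw [h, h'] <;> norm_num

theorem vv_add (ε : ℕ → ℤ) (hε : ∀ j, ε j = 1 ∨ ε j = -1) (j : ℕ) :
    sg ε j * vv P ε j + sg ε j * vv P ε (j + 1) = -P.γ j / 2 := by
  unfold vv sg
  rw [Finset.sum_range_succ, pow_succ]
  have h1 : ((-1 : ℝ) ^ j) * (-1) ^ j = 1 := by
    rw [← mul_pow]; norm_num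
  have h2 : (ε j : ℝ) * (ε j : ℝ) = 1 := by
    rcases hε j with h' | h' <;> rw [h'] <;> norm_num
  linear_combination (-(ε j : ℝ) * (ε j : ℝ) * P.γ j / 2) * h1 - (P.γ j / 2) * h2

theorem γ_nonneg (j : ℕ) : 0 ≤ P.γ j := mul_nonneg (Nat.cast_nonneg _) P.hη.le

theorem sum_γ_le {j : ℕ} (hj : j ≤ P.m) : ∑ i ∈ Finset.range j, P.γ i ≤ 2 * P.τ := by
  refine le_trans ?_ P.hw
  rw [Finset.sum_mul]
  exact Finset.sum_le_sum_of_subset_of_nonneg
    (fun i hi => Finset.mem_range.2 (lt_of_lt_of_le (Finset.mem_range.1 hi) hj))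
    (fun i _ _ => γ_nonneg i)

theorem vv_abs (ε : ℕ → ℤ) (hε : ∀ j, ε j = 1 ∨ ε j = -1) {j : ℕ} (hj : j ≤ P.m) :
    |vv P ε j| ≤ P.τ := by
  unfold vv
  rw [abs_div, abs_mul, abs_pow, abs_neg, abs_one, one_pow, one_mul]
  have h1 : |∑ i ∈ Finset.range j, (ε i : ℝ) * P.γ i| ≤ ∑ i ∈ Finset.range j, P.γ i := by
    refine (Finset.abs_sum_le_sum_abs _ _).trans (Finset.sum_le_sum (fun i _ => ?_))
    rw [abs_mul, abs_of_nonneg (γ_nonneg (P := P) i)]
    rcases hε i with h | h <;> rw [h] <;> simp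
  have h2 := sum_γ_le hj
  rw [abs_of_pos (by norm_num : (0 : ℝ) < 2)]
  linarith

theorem vv_zero (ε : ℕ → ℤ) : vv P ε 0 = 0 := by simp [vv]

theorem vv_m (ε : ℕ → ℤ) (h : ∑ j ∈ Finset.range P.m, ε j * P.w j = 0) : vv P ε P.m = 0 := by
  unfold vv
  have : ∑ i ∈ Finset.range P.m, (ε i : ℝ) * P.γ i = 0 := by
    have h' : ∑ i ∈ Finset.range P.m, (ε i : ℝ) * P.γ i =
        ((∑ j ∈ Finset.range P.m, ε j * P.w j : ℤ) : ℝ) * P.η := by
      push_cast
      rw [Finset.sum_mul]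
      refine Finset.sum_congr rfl (fun i _ => ?_)
      unfold Par.γ
      ring
    rw [h', h]
    simp
  rw [this]
  simp

theorem okj (ε : ℕ → ℤ) (hε : ∀ j, ε j = 1 ∨ ε j = -1) {j : ℕ} (hj : j < P.m) :
    OK P.G (sg ε j * vv P ε j) (sg ε j * vv P ε (j + 1)) (P.γ j) := by
  have h1 : |sg ε j * vv P ε j| ≤ P.τ := by
    rw [abs_mul]
    rcases sg_eq hε j with h | h <;> rw [h] <;> simpa using vv_abs ε hε hj.le
  have h2 : |sg ε j * vv P ε (j + 1)| ≤ P.τ := by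
    rw [abs_mul]
    rcases sg_eq hε j with h | h <;> rw [h] <;> simpa using vv_abs ε hε (Nat.succ_le_of_lt hj)
  rw [abs_le] at h1 h2
  have hτ := P.hτ
  have h3 : P.γ j ≤ 2 * P.τ := le_trans
    (Finset.single_le_sum (f := fun i => P.γ i) (fun i _ => γ_nonneg i) (Finset.mem_range.2 hj))
    (sum_γ_le le_rfl)
  refine ⟨by linarith, by linarith, by linarith, by linarith, γ_nonneg j, by linarith,
    vv_add ε hε j, ?_, ?_⟩
  · unfold Par.G
    have := P.hr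
    linarith
  · unfold Par.G
    have := P.hr'
    linarith

/-- the centres -/
noncomputable def cen (P : Par) (ε : ℕ → ℤ) (n : ℕ) : Pt :=
  (((n / 7 : ℕ) : ℝ) * P.G + XX P.G (sg ε (n / 7) * vv P ε (n / 7))
      (sg ε (n / 7) * vv P ε (n / 7 + 1)) (P.γ (n / 7)) (n % 7),
    sg ε (n / 7) * YY (sg ε (n / 7) * vv P ε (n / 7)) (P.γ (n / 7)) (n % 7))

theorem sg_sq {ε : ℕ → ℤ} (hε : ∀ j, ε j = 1 ∨ ε j = -1) (j : ℕ) : sg ε j * sg ε j = 1 := by
  rcases sg_eq hε j with h | h <;> rw [h] <;> norm_num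

theorem cen_zero {ε : ℕ → ℤ} (hε : ∀ j, ε j = 1 ∨ ε j = -1) {n : ℕ} (h : n % 7 = 0) :
    cen P ε n = (((n / 7 : ℕ) : ℝ) * P.G, vv P ε (n / 7)) := by
  unfold cen
  rw [h]
  simp only [XX, YY]
  rw [add_zero, ← mul_assoc, sg_sq hε, one_mul]

theorem G_lo : 7.423 ≤ P.G := by
  unfold Par.G
  have := P.hr
  have := s3_lo
  linarith

theorem cen_disk {ε : ℕ → ℤ} (hε : ∀ j, ε j = 1 ∨ ε j = -1)
    (h0 : ∑ j ∈ Finset.range P.m, ε j * P.w j = 0) {n : ℕ} (hn : n < 7 * P.m + 1) :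
    disk (cen P ε n) ⊆ P.Reg := by
  by_cases ht : n % 7 = 0
  · rw [cen_zero hε ht]
    exact diskM (by omega) (vv_abs ε hε (by omega)) (fun h => by rw [h]; exact vv_zero ε)
      (fun h => by rw [h]; exact vv_m ε h0) G_lo (fun i => γ_nonneg i)
  · exact disk_mem (by omega) (okj ε hε (by omega)) (sg_eq hε _) (by omega) (by omega)

theorem cen_dist {ε : ℕ → ℤ} (hε : ∀ j, ε j = 1 ∨ ε j = -1) {n n' : ℕ} (hnn : n < n')
    (hn' : n' < 7 * P.m + 1) :
    4 ≤ ((cen P ε n).1 - (cen P ε n').1) ^ 2 + ((cen P ε n).2 - (cen P ε n').2) ^ 2 := by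
  have hG := G_lo (P := P)
  have hj : n / 7 < P.m := by omega
  have hok := okj (P := P) ε hε hj
  rcases Nat.lt_or_ge (n / 7) (n' / 7) with h | h
  · by_cases ht' : n' % 7 = 0
    · rw [cen_zero hε ht']
      by_cases h1 : n' / 7 = n / 7 + 1
      · rw [h1]
        have := hok.dist' (t := n % 7) (by omega)
        unfold cen
        refine this.trans (le_of_eq ?_)
        push_cast
        rcases sg_eq hε (n / 7) with hs | hs <;> rw [hs] <;> ring
      · have b1 := hok.XX_bounds (t := n % 7) (by omega)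
        have h2 : ((n / 7 : ℕ) : ℝ) + 2 ≤ ((n' / 7 : ℕ) : ℝ) := by
          have : n / 7 + 2 ≤ n' / 7 := by omega
          exact_mod_cast this
        have h3 : (cen P ε n).1 - (((n' / 7 : ℕ) : ℝ) * P.G) ≤ -2 := by
          unfold cen
          simp only
          nlinarith [b1.2.1]
        nlinarith [sq_nonneg ((cen P ε n).2 - vv P ε (n' / 7))]
    · have hok' := okj (P := P) ε hε (j := n' / 7) (by omega)
      have b1 := hok.XX_bounds (t := n % 7) (by omega)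
      have b2 := hok'.XX_bounds (t := n' % 7) (by omega)
      have b3 := b2.2.2 (by omega)
      have h2 : ((n / 7 : ℕ) : ℝ) + 1 ≤ ((n' / 7 : ℕ) : ℝ) := by exact_mod_cast h
      have h3 : (cen P ε n).1 - (cen P ε n').1 ≤ -2 := by
        unfold cen
        simp only
        nlinarith [b1.2.1]
      nlinarith [sq_nonneg ((cen P ε n).2 - (cen P ε n').2)]
  · have hjj : n' / 7 = n / 7 := by omega
    have := hok.dist (t := n % 7) (t' := n' % 7) (by omega) (by omega)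
    unfold cen
    rw [hjj]
    refine this.trans (le_of_eq ?_)
    rcases sg_eq hε (n / 7) with hs | hs <;> rw [hs] <;> ring

end Yes

open Yes in
theorem rpacks_of_balanced (P : Par) (h : P.Balanced) : P.RPacks := by
  obtain ⟨ε, hε, h0⟩ := h
  refine ⟨fun i => cen P ε i, fun i => cen_disk hε h0 i.2, ?_⟩
  intro i j hij
  rcases lt_or_gt_of_ne (fun h => hij (Fin.ext h) : (i : ℕ) ≠ j) with h | h
  · exact cen_dist hε h j.2
  · refine (cen_dist hε h i.2).trans (le_of_eq ?_)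
    ring

end Pool.Agent.Helper97.UDP
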